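import Mathlib
import Pool.Agent.helper84.DM.Defs
import Pool.Agent.helper9.Tors.Divs

/-!
# Density hypothesis in the mean: elementary sums with divisor coefficients
-/

set_option autoImplicit false

namespace Pool.Agent.helper84.DM

open Finset

theorem SM_term {δ C : ℝ} (hC : 0 < C) (hdb : ∀ n : ℕ, 1 ≤ n → d n ≤ C * (n : ℝ) ^ δ) {n : ℕ}
    (hn : 1 ≤ n) : d n ^ 2 ≤ C ^ 2 * (n : ℝ) ^ (2 * δ) := by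
  have hn0 : (0 : ℝ) < n := by exact_mod_cast hn
  have h0 : 0 ≤ d n := by unfold d; positivity
  have h1 : d n ^ 2 ≤ (C * (n : ℝ) ^ δ) ^ 2 := pow_le_pow_left₀ h0 (hdb n hn) 2
  have h2 : ((n : ℝ) ^ δ) ^ 2 = (n : ℝ) ^ (2 * δ) := by
    rw [← Real.rpow_natCast, ← Real.rpow_mul hn0.le]
    congr 1
    push_cast
    ring
  rw [mul_pow, h2] at h1
  exact h1

theorem SM_zeta {δ : ℝ} (hδ : 0 < δ) : Summable (fun n : ℕ => (n : ℝ) ^ (-(1 + δ))) :=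
  Real.summable_nat_rpow.2 (by linarith)

theorem SM_head_of (δ : ℝ) (hδ : 0 < δ) {C : ℝ} (hC : 0 < C)
    (hdb : ∀ n : ℕ, 1 ≤ n → d n ≤ C * (n : ℝ) ^ δ) : ∃ C : ℝ, 0 < C ∧ ∀ T : ℝ, 2 ≤ T →
    ∑ n ∈ Finset.Icc 1 ⌊T⌋₊, d n ^ 2 * (n : ℝ) ^ (-(1 : ℝ)) * (3 * T + (n : ℝ) ^ (1 + δ))
      ≤ C * T ^ (1 + 4 * δ) := by
  set Z : ℝ := ∑' n : ℕ, (n : ℝ) ^ (-(1 + δ)) with hZ
  have hZ0 : 0 ≤ Z := tsum_nonneg fun n => by positivity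
  refine ⟨C ^ 2 * (3 * Z + 1), by positivity, fun T hT => ?_⟩
  have hT0 : 0 < T := by linarith
  have hT1 : 1 ≤ T := by linarith
  have hterm : ∀ n ∈ Finset.Icc 1 ⌊T⌋₊,
      d n ^ 2 * (n : ℝ) ^ (-(1 : ℝ)) * (3 * T + (n : ℝ) ^ (1 + δ)) ≤
        C ^ 2 * (3 * T * T ^ (3 * δ) * (n : ℝ) ^ (-(1 + δ)) + T ^ (3 * δ)) := by
    intro n hn
    rw [Finset.mem_Icc] at hn
    have hn1 : (1 : ℝ) ≤ n := by exact_mod_cast hn.1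
    have hn0 : (0 : ℝ) < n := by linarith
    have hnT : (n : ℝ) ≤ T := (Nat.le_floor_iff hT0.le).1 hn.2
    have h1 := SM_term hC hdb hn.1
    have h2 : (n : ℝ) ^ (3 * δ) ≤ T ^ (3 * δ) := Real.rpow_le_rpow hn0.le hnT (by linarith)
    have h3 : (n : ℝ) ^ (2 * δ) * (n : ℝ) ^ (-(1 : ℝ)) * (3 * T) =
        3 * T * ((n : ℝ) ^ (3 * δ)) * (n : ℝ) ^ (-(1 + δ)) := by
      have e : (n : ℝ) ^ (2 * δ) * (n : ℝ) ^ (-(1 : ℝ)) =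
          (n : ℝ) ^ (3 * δ) * (n : ℝ) ^ (-(1 + δ)) := by
        rw [← Real.rpow_add hn0, ← Real.rpow_add hn0]
        congr 1
        ring
      rw [e]
      ring
    have h4 : (n : ℝ) ^ (2 * δ) * (n : ℝ) ^ (-(1 : ℝ)) * (n : ℝ) ^ (1 + δ) =
        (n : ℝ) ^ (3 * δ) := by
      rw [← Real.rpow_add hn0, ← Real.rpow_add hn0]
      congr 1
      ring
    calc d n ^ 2 * (n : ℝ) ^ (-(1 : ℝ)) * (3 * T + (n : ℝ) ^ (1 + δ))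
        ≤ (C ^ 2 * (n : ℝ) ^ (2 * δ)) * (n : ℝ) ^ (-(1 : ℝ)) * (3 * T + (n : ℝ) ^ (1 + δ)) := by
          gcongr
      _ = C ^ 2 * ((n : ℝ) ^ (2 * δ) * (n : ℝ) ^ (-(1 : ℝ)) * (3 * T) +
          (n : ℝ) ^ (2 * δ) * (n : ℝ) ^ (-(1 : ℝ)) * (n : ℝ) ^ (1 + δ)) := by ring
      _ = C ^ 2 * (3 * T * ((n : ℝ) ^ (3 * δ)) * (n : ℝ) ^ (-(1 + δ)) + (n : ℝ) ^ (3 * δ)) := by
          rw [h3, h4]
      _ ≤ C ^ 2 * (3 * T * T ^ (3 * δ) * (n : ℝ) ^ (-(1 + δ)) + T ^ (3 * δ)) := by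
          gcongr
  have hsum : ∑ n ∈ Finset.Icc 1 ⌊T⌋₊, (n : ℝ) ^ (-(1 + δ)) ≤ Z :=
    (SM_zeta hδ).sum_le_tsum _ fun n _ => by positivity
  have hcard : ((Finset.Icc 1 ⌊T⌋₊).card : ℝ) ≤ T := by
    rw [Nat.card_Icc, Nat.add_sub_cancel]
    exact Nat.floor_le hT0.le
  have hTT : T * T ^ (3 * δ) = T ^ (1 + 3 * δ) := by
    rw [Real.rpow_add hT0, Real.rpow_one]
  calc ∑ n ∈ Finset.Icc 1 ⌊T⌋₊, d n ^ 2 * (n : ℝ) ^ (-(1 : ℝ)) * (3 * T + (n : ℝ) ^ (1 + δ))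
      ≤ ∑ n ∈ Finset.Icc 1 ⌊T⌋₊,
          C ^ 2 * (3 * T * T ^ (3 * δ) * (n : ℝ) ^ (-(1 + δ)) + T ^ (3 * δ)) :=
        Finset.sum_le_sum hterm
    _ = C ^ 2 * (3 * (T * T ^ (3 * δ)) * ∑ n ∈ Finset.Icc 1 ⌊T⌋₊, (n : ℝ) ^ (-(1 + δ)) +
          ((Finset.Icc 1 ⌊T⌋₊).card : ℝ) * T ^ (3 * δ)) := by
        rw [← Finset.mul_sum, Finset.sum_add_distrib, Finset.sum_const, nsmul_eq_mul,
          ← Finset.mul_sum]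
        ring
    _ ≤ C ^ 2 * (3 * (T * T ^ (3 * δ)) * Z + T * T ^ (3 * δ)) := by gcongr
    _ = C ^ 2 * (3 * Z + 1) * T ^ (1 + 3 * δ) := by rw [hTT]; ring
    _ ≤ C ^ 2 * (3 * Z + 1) * T ^ (1 + 4 * δ) := by
        have : T ^ (1 + 3 * δ) ≤ T ^ (1 + 4 * δ) :=
          Real.rpow_le_rpow_of_exponent_le hT1 (by linarith)
        gcongr

theorem SM_tail_of (δ β : ℝ) (hδ : 0 < δ) (hδ1 : δ ≤ 1 / 8) (hβ : 3 ≤ β) {C : ℝ} (hC : 0 < C)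
    (hdb : ∀ n : ℕ, 1 ≤ n → d n ≤ C * (n : ℝ) ^ δ) :
    ∃ C : ℝ, 0 < C ∧ ∀ T : ℝ, 2 ≤ T →
    Summable (fun n : ℕ => if T < (n : ℝ) then
        d n ^ 2 * (n : ℝ) ^ (-β) * (3 * T + (n : ℝ) ^ (1 + δ)) else 0) ∧
    ∑' n : ℕ, (if T < (n : ℝ) then
        d n ^ 2 * (n : ℝ) ^ (-β) * (3 * T + (n : ℝ) ^ (1 + δ)) else 0)
      ≤ C * T ^ (2 - β + 4 * δ) := by
  set Z : ℝ := ∑' n : ℕ, (n : ℝ) ^ (-(1 + δ)) with hZ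
  have hZ0 : 0 ≤ Z := tsum_nonneg fun n => by positivity
  refine ⟨4 * C ^ 2 * (Z + 1), by positivity, fun T hT => ?_⟩
  have hT0 : 0 < T := by linarith
  have hterm : ∀ n : ℕ, (if T < (n : ℝ) then
        d n ^ 2 * (n : ℝ) ^ (-β) * (3 * T + (n : ℝ) ^ (1 + δ)) else 0) ≤
      4 * C ^ 2 * T ^ (2 - β + 4 * δ) * (n : ℝ) ^ (-(1 + δ)) := by
    intro n
    split_ifs with hn
    · have hn1 : (1 : ℝ) ≤ n := by linarith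
      have hn1' : 1 ≤ n := by exact_mod_cast hn1
      have hn0 : (0 : ℝ) < n := by linarith
      have h1 := SM_term hC hdb hn1'
      have h3 : 3 * T ≤ 3 * (n : ℝ) ^ (1 + δ) := by
        have : (n : ℝ) ^ (1 : ℝ) ≤ (n : ℝ) ^ (1 + δ) :=
          Real.rpow_le_rpow_of_exponent_le hn1 (by linarith)
        rw [Real.rpow_one] at this
        linarith
      have h4 : (n : ℝ) ^ (2 * δ) * (n : ℝ) ^ (-β) * (n : ℝ) ^ (1 + δ) =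
          (n : ℝ) ^ (2 - β + 4 * δ) * (n : ℝ) ^ (-(1 + δ)) := by
        rw [← Real.rpow_add hn0, ← Real.rpow_add hn0, ← Real.rpow_add hn0]
        congr 1
        ring
      have h5 : (n : ℝ) ^ (2 - β + 4 * δ) ≤ T ^ (2 - β + 4 * δ) :=
        Real.rpow_le_rpow_of_nonpos hT0 hn.le (by linarith)
      calc d n ^ 2 * (n : ℝ) ^ (-β) * (3 * T + (n : ℝ) ^ (1 + δ))
          ≤ (C ^ 2 * (n : ℝ) ^ (2 * δ)) * (n : ℝ) ^ (-β) *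
              (3 * (n : ℝ) ^ (1 + δ) + (n : ℝ) ^ (1 + δ)) := by gcongr
        _ = 4 * C ^ 2 * ((n : ℝ) ^ (2 * δ) * (n : ℝ) ^ (-β) * (n : ℝ) ^ (1 + δ)) := by ring
        _ = 4 * C ^ 2 * ((n : ℝ) ^ (2 - β + 4 * δ) * (n : ℝ) ^ (-(1 + δ))) := by rw [h4]
        _ ≤ 4 * C ^ 2 * (T ^ (2 - β + 4 * δ) * (n : ℝ) ^ (-(1 + δ))) := by gcongr
        _ = 4 * C ^ 2 * T ^ (2 - β + 4 * δ) * (n : ℝ) ^ (-(1 + δ)) := by ring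
    · positivity
  have hnn : ∀ n : ℕ, 0 ≤ (if T < (n : ℝ) then
        d n ^ 2 * (n : ℝ) ^ (-β) * (3 * T + (n : ℝ) ^ (1 + δ)) else 0) := by
    intro n
    split_ifs
    · positivity
    · exact le_rfl
  have hs : Summable (fun n : ℕ => 4 * C ^ 2 * T ^ (2 - β + 4 * δ) * (n : ℝ) ^ (-(1 + δ))) :=
    (SM_zeta hδ).mul_left _
  have hsum := Summable.of_nonneg_of_le hnn hterm hs
  refine ⟨hsum, ?_⟩
  calc ∑' n : ℕ, (if T < (n : ℝ) then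
        d n ^ 2 * (n : ℝ) ^ (-β) * (3 * T + (n : ℝ) ^ (1 + δ)) else 0)
      ≤ ∑' n : ℕ, 4 * C ^ 2 * T ^ (2 - β + 4 * δ) * (n : ℝ) ^ (-(1 + δ)) :=
        hsum.tsum_le_tsum hterm hs
    _ = 4 * C ^ 2 * T ^ (2 - β + 4 * δ) * Z := by rw [tsum_mul_left]
    _ ≤ 4 * C ^ 2 * T ^ (2 - β + 4 * δ) * (Z + 1) := by
        have : 0 ≤ 4 * C ^ 2 * T ^ (2 - β + 4 * δ) := by positivity
        nlinarith
    _ = 4 * C ^ 2 * (Z + 1) * T ^ (2 - β + 4 * δ) := by ring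

/-- the divisor bound in the form used here -/
theorem SM_div (δ : ℝ) (hδ : 0 < δ) : ∃ C : ℝ, 0 < C ∧ ∀ n : ℕ, 1 ≤ n →
    d n ≤ C * (n : ℝ) ^ δ := by
  obtain ⟨C, hC, h⟩ := Pool.Agent.helper9.Tors.divisor_bound δ hδ
  exact ⟨C, hC, fun n hn => h n (by omega)⟩

theorem sm_head (δ : ℝ) (hδ : 0 < δ) (hδ1 : δ ≤ 1 / 8) : ∃ C : ℝ, 0 < C ∧ ∀ T : ℝ, 2 ≤ T →
    ∑ n ∈ Finset.Icc 1 ⌊T⌋₊, d n ^ 2 * (n : ℝ) ^ (-(1 : ℝ)) * (3 * T + (n : ℝ) ^ (1 + δ))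
      ≤ C * T ^ (1 + 4 * δ) := by
  obtain ⟨C, hC, h⟩ := SM_div δ hδ
  exact SM_head_of δ hδ hC h

theorem sm_tail (δ β : ℝ) (hδ : 0 < δ) (hδ1 : δ ≤ 1 / 8) (hβ : 3 ≤ β) (hβ1 : β ≤ 4) :
    ∃ C : ℝ, 0 < C ∧ ∀ T : ℝ, 2 ≤ T →
    Summable (fun n : ℕ => if T < (n : ℝ) then
        d n ^ 2 * (n : ℝ) ^ (-β) * (3 * T + (n : ℝ) ^ (1 + δ)) else 0) ∧
    ∑' n : ℕ, (if T < (n : ℝ) then
        d n ^ 2 * (n : ℝ) ^ (-β) * (3 * T + (n : ℝ) ^ (1 + δ)) else 0)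
      ≤ C * T ^ (2 - β + 4 * δ) := by
  obtain ⟨C, hC, h⟩ := SM_div δ hδ
  exact SM_tail_of δ β hδ hδ1 hβ hC h

end Pool.Agent.helper84.DM
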